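import Pool.Agent.W_MP_de1370_an.Defs

/-!
# Property (SC) fails for `cwk(ℓ²(ι))`: proof
-/

open MeasureTheory Set Cardinal

namespace Pool.Agent.W_MP_de1370_an

/-! ### A subset of `[0,1]` which is not Lebesgue measurable -/

lemma exists_vitali : ∃ V : Set ℝ, V ⊆ Icc 0 1 ∧
    (∀ x ∈ V, ∀ y ∈ V, ∀ q : ℚ, x - y = q → x = y) ∧ (∀ x : ℝ, ∃ q : ℚ, ∃ v ∈ V, x = q + v) := by
  classical
  let G : AddSubgroup ℝ := (Rat.castHom ℝ).toAddMonoidHom.range
  have hG : ∀ x : ℝ, x ∈ G ↔ ∃ q : ℚ, (q : ℝ) = x := by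
    intro x
    simp [G, AddMonoidHom.mem_range]
  refine ⟨range fun q : ℝ ⧸ G => Int.fract (q.out : ℝ), ?_, ?_, ?_⟩
  · rintro _ ⟨q, rfl⟩
    exact ⟨Int.fract_nonneg _, (Int.fract_lt_one _).le⟩
  · rintro _ ⟨a, rfl⟩ _ ⟨b, rfl⟩ q hq
    have h1 : (a.out : ℝ) - b.out = ((q + ⌊(a.out : ℝ)⌋ - ⌊(b.out : ℝ)⌋ : ℚ) : ℝ) := by
      have ha := Int.floor_add_fract (a.out : ℝ)
      have hb := Int.floor_add_fract (b.out : ℝ)
      push_cast
      simp only at hq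
      linarith
    have h2 : a = b := by
      have h3 : ((QuotientAddGroup.mk (a.out : ℝ) : ℝ ⧸ G)) = QuotientAddGroup.mk (b.out : ℝ) := by
        rw [eq_comm, QuotientAddGroup.eq]
        rw [hG]
        refine ⟨_, h1.symm.trans ?_⟩
        ring
      simpa using h3
    rw [h2]
  · intro x
    let a : ℝ ⧸ G := QuotientAddGroup.mk x
    have h3 : ((QuotientAddGroup.mk (a.out : ℝ) : ℝ ⧸ G)) = QuotientAddGroup.mk x := by
      simp [a]
    rw [QuotientAddGroup.eq, hG] at h3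
    obtain ⟨q, hq⟩ := h3
    refine ⟨q + ⌊(a.out : ℝ)⌋, _, ⟨a, rfl⟩, ?_⟩
    have ha := Int.floor_add_fract (a.out : ℝ)
    push_cast
    linarith

lemma exists_not_nullMeasurableSet :
    ∃ A : Set unitInterval, ¬ NullMeasurableSet A (volume : Measure unitInterval) := by
  obtain ⟨V, hV1, hV2, hV3⟩ := exists_vitali
  refine ⟨{t | (t : ℝ) ∈ V}, ?_⟩
  intro hA
  obtain ⟨t, htA, htm, hteq⟩ := hA.exists_measurable_subset_ae_eq
  -- the image of `t` in `ℝ`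
  have hSm : MeasurableSet ((fun x : unitInterval => (x : ℝ)) '' t) :=
    (MeasurableEmbedding.subtype_coe measurableSet_Icc).measurableSet_image.2 htm
  have hvol : ∀ s : Set unitInterval, volume ((fun x : unitInterval => (x : ℝ)) '' s) = volume s :=
    fun s => volume_image_subtype_coe measurableSet_Icc s
  have hS0 : volume ((fun x : unitInterval => (x : ℝ)) '' t) = 0 := by
    by_contra hne
    have hpos : 0 < volume ((fun x : unitInterval => (x : ℝ)) '' t) := pos_iff_ne_zero.2 hne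
    have hnhds := Measure.sub_mem_nhds_zero_of_addHaar_pos (volume : Measure ℝ) _ hSm hpos
    rw [Metric.mem_nhds_iff] at hnhds
    obtain ⟨ε, hε, hball⟩ := hnhds
    obtain ⟨q, hq1, hq2⟩ := exists_rat_btwn hε
    have hq : (q : ℝ) ∈ Metric.ball (0 : ℝ) ε := by
      rw [Metric.mem_ball, dist_zero_right, Real.norm_eq_abs, abs_of_pos hq1]
      exact hq2
    obtain ⟨x, hx, y, hy, hxy⟩ := hball hq
    obtain ⟨x', hx', rfl⟩ := hx
    obtain ⟨y', hy', rfl⟩ := hy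
    have := hV2 _ (htA hx') _ (htA hy') q hxy
    simp only at this hxy
    rw [this, sub_self] at hxy
    exact hq1.ne hxy
  have hA0 : volume {t : unitInterval | (t : ℝ) ∈ V} = 0 := by
    rw [← measure_congr hteq, ← hvol, hS0]
  have hV0 : volume V = 0 := by
    have : ((fun x : unitInterval => (x : ℝ)) '' {t : unitInterval | (t : ℝ) ∈ V}) = V := by
      ext x
      constructor
      · rintro ⟨y, hy, rfl⟩
        exact hy
      · intro hx
        exact ⟨⟨x, hV1 hx⟩, hx, rfl⟩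
    rw [← this, hvol, hA0]
  have huniv : (univ : Set ℝ) ⊆ ⋃ q : ℚ, (fun x => (q : ℝ) + x) '' V := by
    intro x _
    obtain ⟨q, v, hv, hx⟩ := hV3 x
    exact mem_iUnion.2 ⟨q, v, hv, hx.symm⟩
  have h0 : volume (⋃ q : ℚ, (fun x => (q : ℝ) + x) '' V) = 0 := by
    rw [measure_iUnion_null_iff]
    intro q
    have : (fun x => (q : ℝ) + x) '' V = (fun x => -(q : ℝ) + x) ⁻¹' V := by
      ext x
      constructor
      · rintro ⟨y, hy, rfl⟩
        simpa using hy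
      · intro hx
        exact ⟨-(q : ℝ) + x, hx, by simp⟩
    rw [this, measure_preimage_add, hV0]
  have : volume (univ : Set ℝ) = 0 := measure_mono_null huniv h0
  simp at this

/-! ### A free triple -/

lemma free_triple {ι : Type} (hι : Order.succ (Order.succ 𝔠) ≤ #ι) (G : ι → ι → Set ι)
    (hG : ∀ a b, #(G a b) < 𝔠) : ∃ a b c, c ∉ G a b ∧ b ∉ G a c ∧ a ∉ G b c := by
  have h0 : ℵ₀ ≤ 𝔠 := aleph0_le_continuum
  have h1 : 𝔠 < Order.succ 𝔠 := Order.lt_succ 𝔠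
  have h2 : Order.succ 𝔠 < Order.succ (Order.succ 𝔠) := Order.lt_succ _
  obtain ⟨A, hA⟩ := le_mk_iff_exists_set.1 (h2.le.trans hι)
  have hU : #(⋃ p : A × A, G p.1 p.2) < #ι := by
    refine lt_of_le_of_lt (mk_iUnion_le _) ?_
    refine lt_of_le_of_lt (mul_le_mul' le_rfl (ciSup_le' fun p => (hG _ _).le)) ?_
    rw [← mul_def, hA, mul_eq_self (h0.trans h1.le),
      mul_eq_left (h0.trans h1.le) h1.le (aleph0_pos.trans_le h0).ne']
    exact h2.trans_le hι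
  have hc : ∃ c, c ∉ ⋃ p : A × A, G p.1 p.2 := by
    by_contra hcon
    push Not at hcon
    have : (⋃ p : A × A, G p.1 p.2) = Set.univ := eq_univ_of_forall hcon
    rw [this, mk_univ] at hU
    exact lt_irrefl _ hU
  obtain ⟨c, hc⟩ := hc
  obtain ⟨B, hBA, hB⟩ := le_mk_iff_exists_subset.1 (h1.le.trans hA.ge)
  have hW : #(⋃ a : B, G a c) < #A := by
    refine lt_of_le_of_lt (mk_iUnion_le _) ?_
    refine lt_of_le_of_lt (mul_le_mul' le_rfl (ciSup_le' fun p => (hG _ _).le)) ?_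
    rw [hB, mul_eq_self h0, hA]
    exact h1
  have hb : ∃ b ∈ A, b ∉ ⋃ a : B, G a c := by
    by_contra hcon
    push Not at hcon
    exact absurd (mk_le_mk_of_subset (show A ⊆ ⋃ a : B, G a c from hcon)) (not_le.2 hW)
  obtain ⟨b, hbA, hb⟩ := hb
  have ha : ∃ a ∈ B, a ∉ G b c := by
    by_contra hcon
    push Not at hcon
    have := mk_le_mk_of_subset (show B ⊆ G b c from hcon)
    rw [hB] at this
    exact absurd (hG b c) (not_lt.2 this)
  obtain ⟨a, haB, ha⟩ := ha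
  refine ⟨a, b, c, ?_, ?_, ha⟩
  · intro h
    exact hc (mem_iUnion.2 ⟨(⟨a, hBA haB⟩, ⟨b, hbA⟩), h⟩)
  · intro h
    exact hb (mem_iUnion.2 ⟨⟨a, haB⟩, h⟩)

/-! ### The counterexample -/

section Main

variable {𝕜 : Type} [RCLike 𝕜] {ι : Type} [DecidableEq ι]

/-- The Hilbert space `ℓ²(ι)`. -/
local instance : Fact ((1 : ENNReal) ≤ 2) := ⟨one_le_two⟩

/-- The unit vector `e i` of `ℓ²(ι)`. -/
noncomputable def e (𝕜 : Type) [RCLike 𝕜] {ι : Type} [DecidableEq ι] (i : ι) :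
    lp (fun _ : ι => 𝕜) 2 := lp.single 2 i (1 : 𝕜)

lemma e_self (i : ι) : (e 𝕜 i : ∀ _ : ι, 𝕜) i = 1 := by
  simp [e]

lemma e_ne {i j : ι} (h : j ≠ i) : (e 𝕜 i : ∀ _ : ι, 𝕜) j = 0 := by
  simp [e, h]

lemma countable_ne (f : lp (fun _ : ι => 𝕜) 2 →L[𝕜] 𝕜) : {i : ι | f (e 𝕜 i) ≠ 0}.Countable := by
  obtain ⟨y, rfl⟩ := (InnerProductSpace.toDual 𝕜 (lp (fun _ : ι => 𝕜) 2)).surjective f
  have hs := (lp.memℓp y).summable (by norm_num)
  have hc : (Function.support fun i => ‖(y : ∀ _ : ι, 𝕜) i‖ ^ (2 : ENNReal).toReal).Countable :=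
    hs.countable_support
  refine hc.mono ?_
  intro i hi
  rw [Set.mem_ofPred_eq, InnerProductSpace.toDual_apply_apply, e, lp.inner_single_right] at hi
  rw [Function.mem_support]
  intro h0
  apply hi
  have : (y : ∀ _ : ι, 𝕜) i = 0 := by
    rw [Real.rpow_eq_zero (norm_nonneg _) (by norm_num)] at h0
    simpa using h0
  rw [this]
  simp

omit [DecidableEq ι] in
lemma hull_mem_cwk {s : Set (lp (fun _ : ι => 𝕜) 2)} (hs : s.Finite) (hne : s.Nonempty) :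
    convexHull ℝ s ∈ cwk 𝕜 (lp (fun _ : ι => 𝕜) 2) := by
  refine ⟨convexHull_nonempty_iff.2 hne, ?_, ?_⟩
  · intro x hx y hy a b ha hb hab
    have := convex_convexHull ℝ s hx hy ha hb hab
    rwa [RCLike.real_smul_eq_coe_smul (K := 𝕜), RCLike.real_smul_eq_coe_smul (K := 𝕜)] at this
  · exact (hs.isCompact_convexHull ℝ).image (toWeakSpaceCLM 𝕜 (lp (fun _ : ι => 𝕜) 2)).continuous

omit [DecidableEq ι] in
lemma re_comb (f : lp (fun _ : ι => 𝕜) 2 →L[𝕜] 𝕜) (x y : lp (fun _ : ι => 𝕜) 2) (c d : ℝ) :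
    RCLike.re (f (c • x + d • y)) = c * RCLike.re (f x) + d * RCLike.re (f y) := by
  rw [RCLike.real_smul_eq_coe_smul (K := 𝕜), RCLike.real_smul_eq_coe_smul (K := 𝕜), map_add,
    map_smul, map_smul, smul_eq_mul, smul_eq_mul, map_add, RCLike.re_ofReal_mul,
    RCLike.re_ofReal_mul]

omit [DecidableEq ι] in
lemma hull_inter (s : Set (lp (fun _ : ι => 𝕜) 2)) (f : lp (fun _ : ι => 𝕜) 2 →L[𝕜] 𝕜) (a : ℝ) :
    (convexHull ℝ s ∩ {x | a < RCLike.re (f x)}).Nonempty ↔ ∃ p ∈ s, a < RCLike.re (f p) := by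
  constructor
  · rintro ⟨x, hx, hxa⟩
    by_contra hcon
    push Not at hcon
    have hconv : Convex ℝ {x : lp (fun _ : ι => 𝕜) 2 | RCLike.re (f x) ≤ a} := by
      intro x hx y hy c d hc hd hcd
      have hx' : RCLike.re (f x) ≤ a := hx
      have hy' : RCLike.re (f y) ≤ a := hy
      change RCLike.re (f (c • x + d • y)) ≤ a
      rw [re_comb]
      calc c * RCLike.re (f x) + d * RCLike.re (f y) ≤ c * a + d * a := by gcongr
        _ = a := by rw [← add_mul, hcd, one_mul]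
    have h1 : RCLike.re (f x) ≤ a := convexHull_min (fun p hp => hcon p hp) hconv hx
    have h2 : a < RCLike.re (f x) := hxa
    exact absurd h2 (not_lt.2 h1)
  · rintro ⟨p, hp, hpa⟩
    exact ⟨p, subset_convexHull ℝ s hp, hpa⟩

/-- The key point: replacing the vertex `0` by a unit vector `e i` does not change the value of
the functional `x'` at the selected point, except for fewer than continuum many `i`. -/
lemma bad_small {Ω : Type} [MeasurableSpace Ω] (hΩ : #Ω ≤ 𝔠)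
    (hcm : ∀ s : Set Ω, s.Countable → MeasurableSet s) {A : Set Ω} (hA : ¬ MeasurableSet A)
    {ψ : Set (lp (fun _ : ι => 𝕜) 2) → lp (fun _ : ι => 𝕜) 2}
    (hψ : ∀ F : Ω → Set (lp (fun _ : ι => 𝕜) 2), (∀ t, F t ∈ cwk 𝕜 (lp (fun _ : ι => 𝕜) 2)) →
      IsScalarlyMeasurableMulti 𝕜 F → IsScalarlyMeasurable 𝕜 (fun t => ψ (F t)))
    {s : Set (lp (fun _ : ι => 𝕜) 2)} (hs : s.Finite) (x' : lp (fun _ : ι => 𝕜) 2 →L[𝕜] 𝕜) :
    #{i : ι | x' (ψ (convexHull ℝ (insert (e 𝕜 i) s))) ≠ x' (ψ (convexHull ℝ (insert 0 s)))}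
      < 𝔠 := by
  classical
  by_contra hcon
  rw [not_lt] at hcon
  set Bad : Set ι :=
    {i : ι | x' (ψ (convexHull ℝ (insert (e 𝕜 i) s))) ≠ x' (ψ (convexHull ℝ (insert 0 s)))}
    with hBad
  obtain ⟨g⟩ := (Cardinal.le_def _ _).1 (hΩ.trans hcon)
  let r : Ω → lp (fun _ : ι => 𝕜) 2 := fun t => if t ∈ A then e 𝕜 (g t : ι) else 0
  let F : Ω → Set (lp (fun _ : ι => 𝕜) 2) := fun t => convexHull ℝ (insert (r t) s)
  have hF : ∀ t, F t ∈ cwk 𝕜 (lp (fun _ : ι => 𝕜) 2) :=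
    fun t => hull_mem_cwk (hs.insert _) (insert_nonempty _ _)
  have hFm : IsScalarlyMeasurableMulti 𝕜 F := by
    rintro H ⟨f, a, -, rfl⟩
    have hcount : {t | f (r t) ≠ 0}.Countable := by
      have h1 : {t : Ω | f (e 𝕜 (g t : ι)) ≠ 0}.Countable := by
        have h2 := (countable_ne (𝕜 := 𝕜) f).preimage_of_injOn
          (f := fun t : Ω => (g t : ι)) (by
            intro x _ y _ hxy
            exact g.injective (Subtype.ext hxy))
        exact h2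
      refine h1.mono ?_
      intro t ht
      simp only [Set.mem_ofPred_eq, r] at ht ⊢
      split_ifs at ht with h
      · exact ht
      · simp at ht
    have hset : {t | (F t ∩ {x | a < RCLike.re (f x)}).Nonempty} =
        ({t | f (r t) ≠ 0} ∩ {t | (F t ∩ {x | a < RCLike.re (f x)}).Nonempty}) ∪
        ({t | f (r t) ≠ 0}ᶜ ∩ {_t | a < 0 ∨ ∃ p ∈ s, a < RCLike.re (f p)}) := by
      ext t
      simp only [Set.mem_ofPred_eq, F, hull_inter, mem_union, mem_inter_iff, mem_compl_iff,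
        not_not, mem_insert_iff, exists_eq_or_imp]
      by_cases h : f (r t) = 0
      · simp [h]
      · simp [h]
    rw [hset]
    exact (hcm _ (hcount.mono inter_subset_left)).union
      ((hcm _ hcount).compl.inter (MeasurableSet.const _))
  have hm := hψ F hF hFm x'
  have hm2 : MeasurableSet {t | x' (ψ (F t)) = x' (ψ (convexHull ℝ (insert 0 s)))} :=
    hm (measurableSet_singleton _)
  have hm3 : {t | x' (ψ (F t)) = x' (ψ (convexHull ℝ (insert 0 s)))} = Aᶜ := by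
    ext t
    simp only [Set.mem_ofPred_eq, mem_compl_iff, F, r]
    constructor
    · intro h ht
      rw [if_pos ht] at h
      exact (g t).2 h
    · intro ht
      rw [if_neg ht]
  rw [hm3] at hm2
  exact hA (by simpa using hm2.compl)

omit [DecidableEq ι] in
/-- A functional equal to `1` at the vertices has real part `1` on the convex hull. -/
lemma coord_sum {s : Set (lp (fun _ : ι => 𝕜) 2)} {g : lp (fun _ : ι => 𝕜) 2 →L[𝕜] 𝕜}
    (h : ∀ p ∈ s, RCLike.re (g p) = 1) {x : lp (fun _ : ι => 𝕜) 2} (hx : x ∈ convexHull ℝ s) :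
    RCLike.re (g x) = 1 := by
  have hconv : Convex ℝ {x : lp (fun _ : ι => 𝕜) 2 | RCLike.re (g x) = 1} := by
    intro x hx y hy c d hc hd hcd
    have hx' : RCLike.re (g x) = 1 := hx
    have hy' : RCLike.re (g y) = 1 := hy
    change RCLike.re (g (c • x + d • y)) = 1
    rw [re_comb, hx', hy', mul_one, mul_one, hcd]
  exact convexHull_min (fun p hp => h p hp) hconv hx

theorem main {Ω : Type} [MeasurableSpace Ω] (hΩ : #Ω ≤ 𝔠)
    (hcm : ∀ s : Set Ω, s.Countable → MeasurableSet s) {A : Set Ω} (hA : ¬ MeasurableSet A)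
    (hι : Order.succ (Order.succ 𝔠) ≤ #ι) :
    ¬ HasPropertySC 𝕜 Ω (cwk 𝕜 (lp (fun _ : ι => 𝕜) 2)) := by
  rintro ⟨ψ, hψ1, hψ2⟩
  have h𝔠 : ℵ₀ ≤ 𝔠 := aleph0_le_continuum
  have bad := fun {s : Set (lp (fun _ : ι => 𝕜) 2)} (hs : s.Finite)
    (x' : lp (fun _ : ι => 𝕜) 2 →L[𝕜] 𝕜) => bad_small hΩ hcm hA hψ2 hs x'
  -- coordinate functionals
  let c : ι → (lp (fun _ : ι => 𝕜) 2 →L[𝕜] 𝕜) := fun i => lp.evalCLM 𝕜 (fun _ : ι => 𝕜) 2 i
  have hc_self : ∀ i, c i (e 𝕜 i) = 1 := fun i => e_self i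
  have hc_ne : ∀ i j, j ≠ i → c j (e 𝕜 i) = 0 := fun i j h => e_ne h
  let B1 : ι → Set ι := fun a =>
    {i | c a (ψ (convexHull ℝ (insert (e 𝕜 i) {e 𝕜 a}))) ≠
      c a (ψ (convexHull ℝ (insert 0 {e 𝕜 a})))}
  let B0 : ι → Set ι := fun a =>
    {i | c a (ψ (convexHull ℝ (insert (e 𝕜 i) {0, e 𝕜 a}))) ≠
      c a (ψ (convexHull ℝ (insert 0 {0, e 𝕜 a})))}
  let B2 : ι → ι → ι → Set ι := fun j a b =>
    {i | c j (ψ (convexHull ℝ (insert (e 𝕜 i) {e 𝕜 a, e 𝕜 b}))) ≠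
      c j (ψ (convexHull ℝ (insert 0 {e 𝕜 a, e 𝕜 b})))}
  have hB1 : ∀ a, #(B1 a) < 𝔠 := fun a => bad (finite_singleton _) _
  have hB0 : ∀ a, #(B0 a) < 𝔠 := fun a => bad (by simp) _
  have hB2 : ∀ j a b, #(B2 j a b) < 𝔠 := fun j a b => bad (by simp) _
  let G : ι → ι → Set ι := fun a b =>
    (B1 a ∪ B1 b) ∪ (B0 a ∪ B0 b) ∪ (B2 a a b ∪ B2 b a b) ∪ {a, b}
  have hun : ∀ {s t : Set ι}, #s < 𝔠 → #t < 𝔠 → #(s ∪ t : Set ι) < 𝔠 := fun hs ht =>
    (mk_union_le _ _).trans_lt (add_lt_of_lt h𝔠 hs ht)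
  have hG : ∀ a b, #(G a b) < 𝔠 := by
    intro a b
    refine hun (hun (hun (hun (hB1 a) (hB1 b)) (hun (hB0 a) (hB0 b)))
      (hun (hB2 _ _ _) (hB2 _ _ _))) ?_
    exact (Set.Finite.lt_aleph0 (by simp)).trans_le h𝔠
  obtain ⟨x, y, z, hz, hy, hx⟩ := free_triple hι G hG
  simp only [G, B1, B0, B2, mem_union, Set.mem_ofPred_eq, mem_insert_iff, mem_singleton_iff,
    not_or, not_not, ne_eq] at hz hy hx
  obtain ⟨⟨⟨⟨hz1, hz2⟩, hz3, hz4⟩, hz5, hz6⟩, hzx, hzy⟩ := hz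
  obtain ⟨⟨⟨⟨hy1, hy2⟩, hy3, hy4⟩, hy5, hy6⟩, hyx, hyz⟩ := hy
  obtain ⟨⟨⟨⟨hx1, hx2⟩, hx3, hx4⟩, hx5, hx6⟩, hxy, hxz⟩ := hx
  have hmem : ∀ s : Set (lp (fun _ : ι => 𝕜) 2), s.Finite → s.Nonempty →
      ψ (convexHull ℝ s) ∈ convexHull ℝ s := fun s hs hne => hψ1 _ (hull_mem_cwk hs hne)
  have h0 : ∀ p : lp (fun _ : ι => 𝕜) 2,
      (insert 0 {0, p} : Set (lp (fun _ : ι => 𝕜) 2)) = {0, p} := fun p => by simp
  -- the three segments
  have e1 : RCLike.re (c x (ψ (convexHull ℝ {0, e 𝕜 x}))) +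
      RCLike.re (c y (ψ (convexHull ℝ {0, e 𝕜 y}))) = 1 := by
    have h := coord_sum (g := c x + c y) (s := {e 𝕜 x, e 𝕜 y}) (by
      rintro p (rfl | rfl)
      · simp [hc_self, hc_ne _ _ hyx]
      · simp [hc_self, hc_ne _ _ hxy]) (hmem {e 𝕜 x, e 𝕜 y} (by simp) (by simp))
    rw [add_apply, map_add, hx1, pair_comm (e 𝕜 x), hy1] at h
    exact h
  have e2 : RCLike.re (c x (ψ (convexHull ℝ {0, e 𝕜 x}))) +
      RCLike.re (c z (ψ (convexHull ℝ {0, e 𝕜 z}))) = 1 := by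
    have h := coord_sum (g := c x + c z) (s := {e 𝕜 x, e 𝕜 z}) (by
      rintro p (rfl | rfl)
      · simp [hc_self, hc_ne _ _ hzx]
      · simp [hc_self, hc_ne _ _ hxz]) (hmem {e 𝕜 x, e 𝕜 z} (by simp) (by simp))
    rw [add_apply, map_add, hx2, pair_comm (e 𝕜 x), hz1] at h
    exact h
  have e3 : RCLike.re (c y (ψ (convexHull ℝ {0, e 𝕜 y}))) +
      RCLike.re (c z (ψ (convexHull ℝ {0, e 𝕜 z}))) = 1 := by
    have h := coord_sum (g := c y + c z) (s := {e 𝕜 y, e 𝕜 z}) (by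
      rintro p (rfl | rfl)
      · simp [hc_self, hc_ne _ _ hzy]
      · simp [hc_self, hc_ne _ _ hyz]) (hmem {e 𝕜 y, e 𝕜 z} (by simp) (by simp))
    rw [add_apply, map_add, hy2, pair_comm (e 𝕜 y), hz2] at h
    exact h
  -- the triangle
  have t1 : c x (ψ (convexHull ℝ {e 𝕜 z, e 𝕜 x, e 𝕜 y})) =
      c x (ψ (convexHull ℝ {0, e 𝕜 x})) := by
    rw [hz5, pair_comm (e 𝕜 x), insert_comm, hy3, h0]
  have t2 : c y (ψ (convexHull ℝ {e 𝕜 z, e 𝕜 x, e 𝕜 y})) =
      c y (ψ (convexHull ℝ {0, e 𝕜 y})) := by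
    rw [hz6, insert_comm, hx3, h0]
  have t3 : c z (ψ (convexHull ℝ {e 𝕜 z, e 𝕜 x, e 𝕜 y})) =
      c z (ψ (convexHull ℝ {0, e 𝕜 z})) := by
    rw [insert_comm, pair_comm (e 𝕜 z), hx6, insert_comm, hy4, h0]
  have e4 : RCLike.re (c x (ψ (convexHull ℝ {0, e 𝕜 x}))) +
      RCLike.re (c y (ψ (convexHull ℝ {0, e 𝕜 y}))) +
      RCLike.re (c z (ψ (convexHull ℝ {0, e 𝕜 z}))) = 1 := by
    have h := coord_sum (g := c x + c y + c z) (s := {e 𝕜 z, e 𝕜 x, e 𝕜 y}) (by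
      rintro p (rfl | rfl | rfl)
      · simp [hc_self, hc_ne _ _ hxz, hc_ne _ _ hyz]
      · simp [hc_self, hc_ne _ _ hzx, hc_ne _ _ hyx]
      · simp [hc_self, hc_ne _ _ hzy, hc_ne _ _ hxy])
        (hmem {e 𝕜 z, e 𝕜 x, e 𝕜 y} (by simp) (by simp))
    rw [add_apply, add_apply, map_add, map_add, t1, t2,
      t3] at h
    exact h
  linarith

end Main

/-- Lebesgue measure on `[0,1]` and `X = ℓ²(ι)` with `ι` of cardinality at least `𝔠⁺⁺`. -/
theorem main_lebesgue (𝕜 : Type) [RCLike 𝕜] (ι : Type) (hι : Order.succ (Order.succ 𝔠) ≤ #ι) :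
    ¬ HasPropertySC 𝕜 (NullMeasurableSpace unitInterval (volume : Measure unitInterval))
        (cwk 𝕜 (lp (fun _ : ι => 𝕜) 2)) := by
  classical
  obtain ⟨A, hA⟩ := exists_not_nullMeasurableSet
  refine main (Ω := NullMeasurableSpace unitInterval (volume : Measure unitInterval)) ?_ ?_
    (A := A) hA hι
  · have : Cardinal.mk unitInterval ≤ #ℝ := mk_subtype_le _
    rwa [mk_real] at this
  · intro s hs
    have : NullMeasurableSet (α := unitInterval) s volume :=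
      NullMeasurableSet.of_null (Set.Countable.measure_zero (α := unitInterval) hs volume)
    exact this

end Pool.Agent.W_MP_de1370_an
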