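import Mathlib

/-!
# Property (SC) of a family of subsets of a Banach space: definitions
-/

open MeasureTheory Set

namespace Pool.Agent.W_MP_de1370_an

section Defs

variable (𝕜 : Type*) [RCLike 𝕜]

/-- `H` is an open half-space of `X`: `H = {x | Re x*(x) > a}` with `x* ≠ 0` in the dual. -/
def IsOpenHalfSpace {X : Type*} [NormedAddCommGroup X] [NormedSpace 𝕜 X] (H : Set X) : Prop :=
  ∃ (f : X →L[𝕜] 𝕜) (a : ℝ), f ≠ 0 ∧ H = {x | a < RCLike.re (f x)}

/-- `f : Ω → X` is scalarly measurable: `x* ∘ f` is measurable for every `x*` in the dual. -/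
def IsScalarlyMeasurable {Ω X : Type*} [MeasurableSpace Ω] [NormedAddCommGroup X]
    [NormedSpace 𝕜 X] (f : Ω → X) : Prop :=
  ∀ x' : X →L[𝕜] 𝕜, Measurable fun t => x' (f t)

/-- The multi-function `F` is scalarly measurable: `{t | F t ∩ H ≠ ∅}` is measurable for every
open half-space `H`. -/
def IsScalarlyMeasurableMulti {Ω X : Type*} [MeasurableSpace Ω] [NormedAddCommGroup X]
    [NormedSpace 𝕜 X] (F : Ω → Set X) : Prop :=
  ∀ H : Set X, IsOpenHalfSpace 𝕜 H → MeasurableSet {t | (F t ∩ H).Nonempty}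

/-- `cwk(X)`: the family of non-empty convex weakly compact subsets of `X`. -/
def cwk (X : Type*) [NormedAddCommGroup X] [NormedSpace 𝕜 X] : Set (Set X) :=
  {C | C.Nonempty ∧
    (∀ x ∈ C, ∀ y ∈ C, ∀ a b : ℝ, 0 ≤ a → 0 ≤ b → a + b = 1 →
      (a : 𝕜) • x + (b : 𝕜) • y ∈ C) ∧
    IsCompact (toWeakSpace 𝕜 X '' C)}

/-- The family `𝒞` of non-empty subsets of `X` has property (SC) with respect to the
measurable space `Ω`: some set selector `ψ` of `𝒞` makes `ψ ∘ F` scalarly measurable for every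
scalarly measurable multi-function `F : Ω → 𝒞`. -/
def HasPropertySC (Ω : Type*) [MeasurableSpace Ω] {X : Type*} [NormedAddCommGroup X]
    [NormedSpace 𝕜 X] (𝒞 : Set (Set X)) : Prop :=
  ∃ ψ : Set X → X, (∀ C ∈ 𝒞, ψ C ∈ C) ∧
    ∀ F : Ω → Set X, (∀ t, F t ∈ 𝒞) → IsScalarlyMeasurableMulti 𝕜 F →
      IsScalarlyMeasurable 𝕜 (fun t => ψ (F t))

end Defs

end Pool.Agent.W_MP_de1370_an
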